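import Pool.Agent.D0H90.HT.Stm

/-!
# Project HT (helper90), module INVP (helper65)
-/

set_option autoImplicit false

namespace Pool.Agent.D0H65.HT

open MvPolynomial Pool.Agent.D0H90.HT

theorem regular_comp {S T U : AffVar} {f : S.Pts → T.Pts} {g : T.Pts → U.Pts}
    (hf : IsRegular S T f) (hg : IsRegular T U g) : IsRegular S U (g ∘ f) := by
  obtain ⟨F, hF⟩ := hf
  obtain ⟨G, hG⟩ := hg
  refine ⟨fun i => bind₁ F (G i), fun z i => ?_⟩
  have h1 : eval z.1 (bind₁ F (G i)) = eval (fun j => eval z.1 (F j)) (G i) := by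
    have := eval₂Hom_bind₁ (RingHom.id ℂ) z.1 F (G i)
    exact this
  have h2 : (fun j => eval z.1 (F j)) = (f z).1 := by
    funext j
    exact (hF z j).symm
  rw [h1, h2]
  exact hG (f z) i

/-- a basis of homogeneous elements -/
theorem basis_of {κ : Type} [DecidableEq κ] {M : Type} [AddCommGroup M] [Module ℂ M]
    [Module.Finite ℂ M] (piece : κ → Submodule ℂ M) (h : DirectSum.IsInternal piece) {n : ℕ}
    (k : Fin n → κ) (hk : Function.Injective k)
    (h1 : ∀ i, Module.finrank ℂ (piece (k i)) = 1)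
    (h0 : ∀ a, (∀ i, a ≠ k i) → Module.finrank ℂ (piece a) = 0)
    (v : Fin n → M) (hv : ∀ i, v i ∈ piece (k i)) (hv0 : ∀ i, v i ≠ 0) :
    ∃ B : Module.Basis (Fin n) ℂ M, ∀ i, B i = v i := by
  have hli : LinearIndependent ℂ v :=
    (h.submodule_iSupIndep.comp hk).linearIndependent (fun i => piece (k i)) hv hv0
  have hsp : ⊤ ≤ Submodule.span ℂ (Set.range v) := by
    rw [← h.submodule_iSup_eq_top]
    refine iSup_le fun a => ?_
    by_cases ha : ∀ i, a ≠ k i
    · have h2 : piece a = ⊥ := Submodule.finrank_eq_zero.1 (h0 a ha)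
      rw [h2]
      exact bot_le
    · push Not at ha
      obtain ⟨i, rfl⟩ := ha
      intro x hx
      have h3 := (finrank_eq_one_iff_of_nonzero' (⟨v i, hv i⟩ : piece (k i)) (by
        intro h4
        exact hv0 i (congrArg Subtype.val h4))).1 (h1 i) ⟨x, hx⟩
      obtain ⟨c, hc⟩ := h3
      have h5 : c • v i = x := congrArg Subtype.val hc
      rw [← h5]
      exact Submodule.smul_mem _ _ (Submodule.subset_span ⟨i, rfl⟩)
  exact ⟨Module.Basis.mk hli hsp, fun i => Module.Basis.mk_apply hli hsp i⟩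

/-- a nonzero vector of a piece of dimension one -/
theorem exists_gen {M : Type} [AddCommGroup M] [Module ℂ M] (N : Submodule ℂ M)
    (h : Module.finrank ℂ N = 1) : ∃ x ∈ N, x ≠ 0 := by
  apply Submodule.exists_mem_ne_zero_of_ne_bot
  intro h0
  rw [h0, finrank_bot] at h
  exact zero_ne_one h

theorem one_ne {M : Type} [Ring M] [Algebra ℂ M] (N : Submodule ℂ M)
    (h : Module.finrank ℂ N = 1) : (1 : M) ≠ 0 := by
  obtain ⟨x, _, hx⟩ := exists_gen N h
  intro h1
  apply hx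
  rw [← mul_one x, h1, mul_zero]

theorem pull_congr (𝓗 : MixedHodgeTheory) {S T : AffVar} {f g : S.Pts → T.Pts} (hfg : f = g)
    (hf : IsRegular S T f) (hg : IsRegular S T g) (x : 𝓗.H T) :
    𝓗.pull S T f hf x = 𝓗.pull S T g hg x := by
  subst hfg
  rfl

/-- **INVP.** -/
theorem t_INVP : S_INVP := by
  intro α β hαβ 𝓗 hσ
  obtain ⟨hE, hEi⟩ := 𝓗.elliptic α β hαβ
  obtain ⟨hQ, hQi⟩ := 𝓗.sphere
  have hE0 : Module.finrank ℂ (𝓗.piece (curve α β) (0, 0, 0)) = 1 := by rw [hE]; simp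
  have hE1 : Module.finrank ℂ (𝓗.piece (curve α β) (1, 1, 0)) = 1 := by rw [hE]; simp
  have hE2 : Module.finrank ℂ (𝓗.piece (curve α β) (1, 0, 1)) = 1 := by rw [hE]; simp
  have hQ0 : Module.finrank ℂ (𝓗.piece quadric (0, 0, 0)) = 1 := by rw [hQ]; simp
  have hQ1 : Module.finrank ℂ (𝓗.piece quadric (2, 1, 1)) = 1 := by rw [hQ]; simp
  obtain ⟨e₁, he₁, he₁0⟩ := exists_gen _ hE1
  obtain ⟨e₂, he₂, he₂0⟩ := exists_gen _ hE2
  obtain ⟨u, hu, hu0⟩ := exists_gen _ hQ1
  have h1E : (1 : 𝓗.H (curve α β)) ≠ 0 := one_ne _ hE0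
  have h1Q : (1 : 𝓗.H quadric) ≠ 0 := one_ne _ hQ0
  obtain ⟨v, hv⟩ : ∃ v : Fin 3 → 𝓗.H (curve α β), v = ![1, e₁, e₂] := ⟨_, rfl⟩
  obtain ⟨w, hw⟩ : ∃ w : Fin 2 → 𝓗.H quadric, w = ![1, u] := ⟨_, rfl⟩
  obtain ⟨kE, hkE⟩ : ∃ k : Fin 3 → ℕ × ℕ × ℕ, k = ![(0, 0, 0), (1, 1, 0), (1, 0, 1)] := ⟨_, rfl⟩
  obtain ⟨kQ, hkQ⟩ : ∃ k : Fin 2 → ℕ × ℕ × ℕ, k = ![(0, 0, 0), (2, 1, 1)] := ⟨_, rfl⟩
  have v0 : v 0 = 1 := by rw [hv]; rfl
  have v1 : v 1 = e₁ := by rw [hv]; rfl
  have v2 : v 2 = e₂ := by rw [hv]; rfl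
  have w0 : w 0 = 1 := by rw [hw]; rfl
  have w1 : w 1 = u := by rw [hw]; rfl
  have kE0 : kE 0 = (0, 0, 0) := by rw [hkE]; rfl
  have kE1 : kE 1 = (1, 1, 0) := by rw [hkE]; rfl
  have kE2 : kE 2 = (1, 0, 1) := by rw [hkE]; rfl
  have kQ0 : kQ 0 = (0, 0, 0) := by rw [hkQ]; rfl
  have kQ1 : kQ 1 = (2, 1, 1) := by rw [hkQ]; rfl
  obtain ⟨BE, hBE⟩ := basis_of (𝓗.piece (curve α β)) (𝓗.internal _) kE (by
      rw [hkE]; decide) (by
      intro i
      fin_cases i
      · exact (congrArg (fun a => Module.finrank ℂ (𝓗.piece (curve α β) a)) kE0).trans hE0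
      · exact (congrArg (fun a => Module.finrank ℂ (𝓗.piece (curve α β) a)) kE1).trans hE1
      · exact (congrArg (fun a => Module.finrank ℂ (𝓗.piece (curve α β) a)) kE2).trans hE2) (by
      intro a ha
      rw [hE, if_neg]
      rintro (h | h | h)
      · exact ha 0 (h.trans kE0.symm)
      · exact ha 1 (h.trans kE1.symm)
      · exact ha 2 (h.trans kE2.symm)) v (by
      intro i
      fin_cases i
      · show v 0 ∈ 𝓗.piece (curve α β) (kE 0)
        rw [v0, kE0]
        exact 𝓗.one_mem _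
      · show v 1 ∈ 𝓗.piece (curve α β) (kE 1)
        rw [v1, kE1]
        exact he₁
      · show v 2 ∈ 𝓗.piece (curve α β) (kE 2)
        rw [v2, kE2]
        exact he₂) (by
      intro i
      fin_cases i
      · show v 0 ≠ 0
        rw [v0]
        exact h1E
      · show v 1 ≠ 0
        rw [v1]
        exact he₁0
      · show v 2 ≠ 0
        rw [v2]
        exact he₂0)
  obtain ⟨BQ, hBQ⟩ := basis_of (𝓗.piece quadric) (𝓗.internal _) kQ (by
      rw [hkQ]; decide) (by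
      intro i
      fin_cases i
      · exact (congrArg (fun a => Module.finrank ℂ (𝓗.piece quadric a)) kQ0).trans hQ0
      · exact (congrArg (fun a => Module.finrank ℂ (𝓗.piece quadric a)) kQ1).trans hQ1) (by
      intro a ha
      rw [hQ, if_neg]
      rintro (h | h)
      · exact ha 0 (h.trans kQ0.symm)
      · exact ha 1 (h.trans kQ1.symm)) w (by
      intro i
      fin_cases i
      · show w 0 ∈ 𝓗.piece quadric (kQ 0)
        rw [w0, kQ0]
        exact 𝓗.one_mem _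
      · show w 1 ∈ 𝓗.piece quadric (kQ 1)
        rw [w1, kQ1]
        exact hu) (by
      intro i
      fin_cases i
      · show w 0 ≠ 0
        rw [w0]
        exact h1Q
      · show w 1 ≠ 0
        rw [w1]
        exact hu0)
  -- the pullbacks
  obtain ⟨p₁, hp₁⟩ : ∃ p : 𝓗.H (curve α β) →ₐ[ℂ] 𝓗.H (P α β),
    p = 𝓗.pull (P α β) (curve α β) (fst _ _) (fst_regular _ _) := ⟨_, rfl⟩
  obtain ⟨p₂, hp₂⟩ : ∃ p : 𝓗.H quadric →ₐ[ℂ] 𝓗.H (P α β),
    p = 𝓗.pull (P α β) quadric (snd _ _) (snd_regular _ _) := ⟨_, rfl⟩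
  obtain ⟨s, hs⟩ : ∃ s : 𝓗.H (P α β) →ₐ[ℂ] 𝓗.H (P α β),
    s = 𝓗.pull (P α β) (P α β) (σ α β) hσ := ⟨_, rfl⟩
  have hK := 𝓗.kunneth (curve α β) quadric
  rw [← hp₁, ← hp₂] at hK
  obtain ⟨B, hB⟩ : ∃ B : Module.Basis (Fin 3 × Fin 2) ℂ (𝓗.H (P α β)),
      ∀ i j, B (i, j) = p₁ (v i) * p₂ (w j) := by
    refine ⟨(BE.tensorProduct BQ).map (LinearEquiv.ofBijective _ hK), fun i j => ?_⟩
    rw [Module.Basis.map_apply, Module.Basis.tensorProduct_apply, hBE, hBQ]
    rw [LinearEquiv.ofBijective_apply, TensorProduct.lift.tmul]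
    rfl
  have hs1 : ∀ x, s (p₁ x) = p₁ (𝓗.pull (curve α β) (curve α β) (inv α β) (inv_regular α β) x) := by
    intro x
    rw [hs, hp₁, ← 𝓗.pull_comp (P α β) (P α β) (curve α β) (σ α β) (fst _ _) hσ (fst_regular _ _)
      (regular_comp hσ (fst_regular _ _)), ← 𝓗.pull_comp (P α β) (curve α β) (curve α β) (fst _ _)
      (inv α β) (fst_regular _ _) (inv_regular α β)
      (regular_comp (fst_regular _ _) (inv_regular α β))]
    exact pull_congr 𝓗 rfl _ _ x
  have hs2 : ∀ x, s (p₂ x) = p₂ (𝓗.pull quadric quadric refl refl_regular x) := by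
    intro x
    rw [hs, hp₂, ← 𝓗.pull_comp (P α β) (P α β) quadric (σ α β) (snd _ _) hσ (snd_regular _ _)
      (regular_comp hσ (snd_regular _ _)), ← 𝓗.pull_comp (P α β) quadric quadric (snd _ _)
      refl (snd_regular _ _) refl_regular
      (regular_comp (snd_regular _ _) refl_regular)]
    exact pull_congr 𝓗 rfl _ _ x
  have s_e1 : s (p₁ e₁) = - p₁ e₁ := by rw [hs1, hEi 1 0 e₁ he₁, map_neg]
  have s_e2 : s (p₁ e₂) = - p₁ e₂ := by rw [hs1, hEi 0 1 e₂ he₂, map_neg]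
  have s_u : s (p₂ u) = - p₂ u := by rw [hs2, hQi u hu, map_neg]
  -- the signs
  obtain ⟨c, hc⟩ : ∃ c : Fin 3 × Fin 2 → ℂ, ∀ m, s (B m) = c m • B m ∧ (c m = 1 ∨ c m = -1) ∧
      (c m = 1 ↔ m = (0, 0) ∨ m = (1, 1) ∨ m = (2, 1)) := by
    have h : ∀ m : Fin 3 × Fin 2, ∃ c : ℂ, s (B m) = c • B m ∧ (c = 1 ∨ c = -1) ∧
        (c = 1 ↔ m = (0, 0) ∨ m = (1, 1) ∨ m = (2, 1)) := by
      rintro ⟨i, j⟩
      fin_cases i <;> fin_cases j
      · refine ⟨1, ?_, Or.inl rfl, by simp⟩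
        show s (B (0, 0)) = _ • B (0, 0)
        rw [hB, v0, w0, map_one, map_one, mul_one, map_one, one_smul]
      · refine ⟨-1, ?_, Or.inr rfl, ?_⟩
        · show s (B (0, 1)) = _ • B (0, 1)
          rw [hB, v0, w1, map_one, one_mul, s_u, neg_smul, one_smul]
        · constructor
          · intro h; norm_num at h
          · intro h; simp at h
      · refine ⟨-1, ?_, Or.inr rfl, ?_⟩
        · show s (B (1, 0)) = _ • B (1, 0)
          rw [hB, v1, w0, map_one, mul_one, s_e1, neg_smul, one_smul]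
        · constructor
          · intro h; norm_num at h
          · intro h; simp at h
      · refine ⟨1, ?_, Or.inl rfl, by simp⟩
        show s (B (1, 1)) = _ • B (1, 1)
        rw [hB, v1, w1, map_mul, s_e1, s_u, neg_mul_neg, one_smul]
      · refine ⟨-1, ?_, Or.inr rfl, ?_⟩
        · show s (B (2, 0)) = _ • B (2, 0)
          rw [hB, v2, w0, map_one, mul_one, s_e2, neg_smul, one_smul]
        · constructor
          · intro h; norm_num at h
          · intro h; simp at h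
      · refine ⟨1, ?_, Or.inl rfl, by simp⟩
        show s (B (2, 1)) = _ • B (2, 1)
        rw [hB, v2, w1, map_mul, s_e2, s_u, neg_mul_neg, one_smul]
    choose c hc using h
    exact ⟨c, hc⟩
  have hB00 : B (0, 0) = 1 := by rw [hB, v0, w0, map_one, map_one, mul_one]
  have hB11 : B (1, 1) = p₁ e₁ * p₂ u := by rw [hB, v1, w1]
  have hB21 : B (2, 1) = p₁ e₂ * p₂ u := by rw [hB, v2, w1]
  -- products
  have hp₁m : ∀ a x, x ∈ 𝓗.piece (curve α β) a → p₁ x ∈ 𝓗.piece (P α β) a := by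
    intro a x hx
    rw [hp₁]
    exact 𝓗.pull_mem _ _ _ _ a x hx
  have hp₂m : ∀ a x, x ∈ 𝓗.piece quadric a → p₂ x ∈ 𝓗.piece (P α β) a := by
    intro a x hx
    rw [hp₂]
    exact 𝓗.pull_mem _ _ _ _ a x hx
  have huu : p₂ u * p₂ u = 0 := by
    rw [← map_mul]
    have h2 := 𝓗.mul_mem _ _ _ u u hu hu
    have h3 : 𝓗.piece quadric ((2, 1, 1) + (2, 1, 1)) = ⊥ := by
      apply Submodule.finrank_eq_zero.1
      rw [hQ]
      simp
    rw [h3, Submodule.mem_bot] at h2
    rw [h2, map_zero]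
  have hcomm : ∀ p q x, x ∈ 𝓗.piece (curve α β) (1, p, q) → p₂ u * p₁ x = p₁ x * p₂ u := by
    intro p q x hx
    have h := 𝓗.comm _ _ _ _ _ (hp₂m _ _ hu) (hp₁m _ _ hx)
    rw [h]
    norm_num
  have hprod : ∀ (x y : 𝓗.H (curve α β)) (p q : ℕ), y ∈ 𝓗.piece (curve α β) (1, p, q) →
      (p₁ x * p₂ u) * (p₁ y * p₂ u) = 0 := by
    intro x y p q hy
    rw [mul_assoc, ← mul_assoc (p₂ u), hcomm p q y hy, mul_assoc (p₁ y), huu, mul_zero, mul_zero]
  refine ⟨p₁ e₁ * p₂ u, p₁ e₂ * p₂ u, ?_, ?_, ?_, hprod _ _ _ _ he₁, hprod _ _ _ _ he₂,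
    hprod _ _ _ _ he₁, hprod _ _ _ _ he₂, ?_⟩
  · exact 𝓗.mul_mem _ (1, 1, 0) (2, 1, 1) _ _ (hp₁m _ _ he₁) (hp₂m _ _ hu)
  · exact 𝓗.mul_mem _ (1, 0, 1) (2, 1, 1) _ _ (hp₁m _ _ he₂) (hp₂m _ _ hu)
  · have h := B.linearIndependent.comp (![(0, 0), (1, 1), (2, 1)] : Fin 3 → Fin 3 × Fin 2)
      (by decide)
    have h2 : (B ∘ (![(0, 0), (1, 1), (2, 1)] : Fin 3 → Fin 3 × Fin 2)) =
        ![1, p₁ e₁ * p₂ u, p₁ e₂ * p₂ u] := by
      funext i
      fin_cases i
      · exact hB00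
      · exact hB11
      · exact hB21
    rwa [h2] at h
  · intro x
    rw [← hs, ← hB11, ← hB21, ← hB00]
    constructor
    · intro hx
      have hcoord : ∀ m, B.repr (s x) m = c m * B.repr x m := by
        intro m
        have h3 : (B.coord m) ∘ₗ (s.toLinearMap) = c m • B.coord m := by
          refine B.ext fun k => ?_
          rw [LinearMap.comp_apply, LinearMap.smul_apply, AlgHom.toLinearMap_apply, (hc k).1,
            map_smul, Module.Basis.coord_apply, Module.Basis.repr_self, smul_eq_mul, smul_eq_mul]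
          by_cases hkm : k = m
          · rw [hkm]
          · rw [Finsupp.single_eq_of_ne (Ne.symm hkm), mul_zero, mul_zero]
        have h4 := LinearMap.congr_fun h3 x
        exact h4
      have hzero : ∀ m, ¬ (m = (0, 0) ∨ m = (1, 1) ∨ m = (2, 1)) → B.repr x m = 0 := by
        intro m hm
        have h5 := hcoord m
        rw [hx] at h5
        rcases (hc m).2.1 with h6 | h6
        · exact absurd ((hc m).2.2.1 h6) hm
        · rw [h6] at h5
          have h7 : 2 * B.repr x m = 0 := by linear_combination h5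
          exact (mul_eq_zero.1 h7).resolve_left two_ne_zero
      rw [← B.sum_repr x]
      refine Submodule.sum_mem _ fun m _ => ?_
      by_cases hm : m = (0, 0) ∨ m = (1, 1) ∨ m = (2, 1)
      · apply Submodule.smul_mem
        apply Submodule.subset_span
        rcases hm with rfl | rfl | rfl
        · exact Or.inl rfl
        · exact Or.inr (Or.inl rfl)
        · exact Or.inr (Or.inr rfl)
      · rw [hzero m hm, zero_smul]
        exact Submodule.zero_mem _
    · intro hx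
      have hfix : ∀ m, (m = (0, 0) ∨ m = (1, 1) ∨ m = (2, 1)) → s (B m) = B m := by
        intro m hm
        rw [(hc m).1, (hc m).2.2.2 hm, one_smul]
      induction hx using Submodule.span_induction with
      | mem y hy =>
        rcases hy with rfl | rfl | rfl
        · exact hfix _ (Or.inl rfl)
        · exact hfix _ (Or.inr (Or.inl rfl))
        · exact hfix _ (Or.inr (Or.inr rfl))
      | zero => exact map_zero s
      | add y z _ _ hy hz => rw [map_add, hy, hz]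
      | smul a y _ hy => rw [map_smul, hy]

end Pool.Agent.D0H65.HT
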