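import Pool.Agent.D0H90.HT.Stm2

/-!
# Project HT (helper90), module LIFT (helper65): path lifting for `Z → X`
-/

set_option autoImplicit false

namespace Pool.Agent.D0H65.HT

open Pool.Agent.D0H90.HT

section

variable {α β : ℂ}

/-- the coordinates of `P` -/
def cx (p : (P α β).Pts) : ℂ := p.1 (Sum.inl (0 : Fin 2))
/-- the coordinates of `P` -/
def cy (p : (P α β).Pts) : ℂ := p.1 (Sum.inl (1 : Fin 2))
/-- the coordinates of `P` -/
def ca (p : (P α β).Pts) : ℂ := p.1 (Sum.inr (0 : Fin 3))
/-- the coordinates of `P` -/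
def cb (p : (P α β).Pts) : ℂ := p.1 (Sum.inr (1 : Fin 3))
/-- the coordinates of `P` -/
def cc (p : (P α β).Pts) : ℂ := p.1 (Sum.inr (2 : Fin 3))

theorem eqE (p : (P α β).Pts) : cy p ^ 2 = cx p ^ 3 + α * cx p + β := p.2.1

theorem eqQ (p : (P α β).Pts) : ca p ^ 2 + cb p ^ 2 + cc p ^ 2 = 1 := p.2.2

theorem extP {p q : (P α β).Pts} (h1 : cx p = cx q) (h2 : cy p = cy q) (h3 : ca p = ca q)
    (h4 : cb p = cb q) (h5 : cc p = cc q) : p = q := by
  apply Subtype.ext
  funext i
  rcases i with i | i
  · change Fin 2 at i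
    obtain rfl | rfl : i = 0 ∨ i = 1 := by omega
    · exact h1
    · exact h2
  · change Fin 3 at i
    obtain rfl | rfl | rfl : i = 0 ∨ i = 1 ∨ i = 2 := by omega
    · exact h3
    · exact h4
    · exact h5

/-- the point with given coordinates -/
def mkP (x y a b c : ℂ) (h1 : y ^ 2 = x ^ 3 + α * x + β) (h2 : a ^ 2 + b ^ 2 + c ^ 2 = 1) :
    (P α β).Pts :=
  pair (curve α β) quadric ⟨(![x, y] : Fin 2 → ℂ), h1⟩ ⟨(![a, b, c] : Fin 3 → ℂ), h2⟩

theorem cx_σ (p : (P α β).Pts) : cx (σ α β p) = cx p := rfl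
theorem cy_σ (p : (P α β).Pts) : cy (σ α β p) = - cy p := rfl
theorem ca_σ (p : (P α β).Pts) : ca (σ α β p) = - ca p := rfl
theorem cb_σ (p : (P α β).Pts) : cb (σ α β p) = cb p := rfl
theorem cc_σ (p : (P α β).Pts) : cc (σ α β p) = cc p := rfl

/-- the fibres of `(x, b, c, y a)` are the orbits of `σ` -/
theorem fib (p q : (P α β).Pts) (hx : cx q = cx p) (hb : cb q = cb p) (hc : cc q = cc p)
    (hw : cy q * ca q = cy p * ca p) : q = p ∨ q = σ α β p := by
  have h1 : cy q ^ 2 = cy p ^ 2 := by rw [eqE, eqE, hx]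
  have h2 : ca q ^ 2 = ca p ^ 2 := by
    have e1 := eqQ p
    have e2 := eqQ q
    rw [hb, hc] at e2
    linear_combination e2 - e1
  rcases sq_eq_sq_iff_eq_or_eq_neg.1 h1 with h3 | h3
  · rcases sq_eq_sq_iff_eq_or_eq_neg.1 h2 with h4 | h4
    · exact Or.inl (extP hx h3 h4 hb hc)
    · by_cases h5 : cy p = 0
      · right
        refine extP hx ?_ h4 hb hc
        rw [h3, cy_σ, h5, neg_zero]
      · left
        refine extP hx h3 ?_ hb hc
        rw [h3] at hw
        exact mul_left_cancel₀ h5 hw
  · rcases sq_eq_sq_iff_eq_or_eq_neg.1 h2 with h4 | h4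
    · by_cases h5 : cy p = 0
      · left
        refine extP hx ?_ h4 hb hc
        rw [h3, h5, neg_zero]
      · right
        refine extP hx h3 ?_ hb hc
        rw [h3] at hw
        rw [ca_σ]
        have h6 : cy p * ca q = cy p * (- ca p) := by linear_combination -hw
        exact mul_left_cancel₀ h5 h6
    · exact Or.inr (extP hx h3 h4 hb hc)

/-- the four functions -/
def fP (p : (P α β).Pts) : Fin 4 → ℂ := ![cx p, cb p, cc p, cy p * ca p]

theorem fP_σ (p : (P α β).Pts) : fP (σ α β p) = fP p := by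
  unfold fP
  rw [cx_σ, cy_σ, ca_σ, cb_σ, cc_σ, neg_mul_neg]

theorem fib' {p q : (P α β).Pts} (h : fP q = fP p) : q = p ∨ q = σ α β p :=
  fib p q (congrFun h 0) (congrFun h 1) (congrFun h 2) (congrFun h 3)

theorem continuous_fst' (S T : AffVar) : Continuous (fst S T) :=
  continuous_induced_rng.2 (continuous_pi fun i =>
    (continuous_apply (Sum.inl i)).comp continuous_subtype_val)

theorem continuous_snd' (S T : AffVar) : Continuous (snd S T) :=
  continuous_induced_rng.2 (continuous_pi fun i =>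
    (continuous_apply (Sum.inr i)).comp continuous_subtype_val)

theorem continuous_coord {S : AffVar} (i : S.ι) : Continuous fun p : S.Pts => p.1 i :=
  (continuous_apply i).comp continuous_subtype_val

theorem continuous_fP : Continuous (fP : (P α β).Pts → Fin 4 → ℂ) := by
  refine continuous_pi fun i => ?_
  fin_cases i
  · exact continuous_coord (S := P α β) (Sum.inl (0 : Fin 2))
  · exact continuous_coord (S := P α β) (Sum.inr (1 : Fin 3))
  · exact continuous_coord (S := P α β) (Sum.inr (2 : Fin 3))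
  · exact (continuous_coord (S := P α β) (Sum.inl (1 : Fin 2))).mul
      (continuous_coord (S := P α β) (Sum.inr (0 : Fin 3)))

theorem inv_of {T : Type} (S : (Z α β).Pts → T) (h1 : ∀ z, S (σ₁ α β z) = S z)
    (h2 : ∀ z, S (σ₂ α β z) = S z) (h3 : ∀ z, S (τ α β z) = S z) :
    ∀ g ∈ Γ α β, ∀ z, S (g z) = S z := by
  intro g hg z
  obtain ⟨⟨i, j, k⟩, rfl⟩ := mem_elt hg
  cases i <;> cases j <;> cases k <;> simp [elt, h1, h2, h3]

theorem exists_desc {T : Type} [TopologicalSpace T] (S : (Z α β).Pts → T) (hS : Continuous S)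
    (h1 : ∀ z, S (σ₁ α β z) = S z) (h2 : ∀ z, S (σ₂ α β z) = S z) (h3 : ∀ z, S (τ α β z) = S z) :
    ∃ F : (Xvar α β).Points → T, Continuous F ∧ ∀ z, F (proj α β z) = S z := by
  have key : ∀ z, S (Function.surjInv (proj_surjective α β) (proj α β z)) = S z := by
    intro z
    have h4 := Function.surjInv_eq (proj_surjective α β) (proj α β z)
    obtain ⟨g, hg, h5⟩ := (proj_eq_iff α β _ _).1 h4
    rw [← h5]
    exact inv_of S h1 h2 h3 g hg z
  refine ⟨fun x => S (Function.surjInv (proj_surjective α β) x), ?_, key⟩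
  apply continuous_desc
  have h6 : (fun z => S (Function.surjInv (proj_surjective α β) (proj α β z))) = S := funext key
  rw [h6]
  exact hS

theorem proj_of {z z' : (Z α β).Pts} {g : Equiv.Perm (Z α β).Pts} (hg : g ∈ Γ α β)
    (h : g z' = z) : proj α β z = proj α β z' := (proj_eq_iff α β z z').2 ⟨g, hg, h⟩

theorem mem1 : σ₁ α β ∈ Γ α β := Subgroup.subset_closure (Or.inl rfl)
theorem mem2 : σ₂ α β ∈ Γ α β := Subgroup.subset_closure (Or.inr (Or.inl rfl))
theorem mem3 : τ α β ∈ Γ α β := Subgroup.subset_closure (Or.inr (Or.inr rfl))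

theorem pair_fs (S T : AffVar) (z : (S.prod T).Pts) : pair S T (fst S T z) (snd S T z) = z := by
  apply Subtype.ext
  funext i
  rcases i with i | i <;> rfl

/-- `proj` does not see `σ` on the components -/
theorem proj_pair {p q p' q' : (P α β).Pts} (hp : p' = p ∨ p' = σ α β p)
    (hq : q' = q ∨ q' = σ α β q) : proj α β (pair _ _ p' q') = proj α β (pair _ _ p q) := by
  have hA : proj α β (pair _ _ p' q') = proj α β (pair _ _ p q') := by
    rcases hp with rfl | rfl
    · rfl
    · exact proj_of mem1 rfl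
  have hB : proj α β (pair _ _ p q') = proj α β (pair _ _ p q) := by
    rcases hq with rfl | rfl
    · rfl
    · exact proj_of mem2 rfl
  exact hA.trans hB

/-- a vector is determined by its square up to the sign -/
theorem sign_of {N : ℕ} (u v : Fin N → ℂ) (h : ∀ i j, u i * u j = v i * v j) : v = u ∨ v = -u := by
  by_cases h0 : ∀ i, u i = 0
  · left
    funext i
    have h1 := h i i
    rw [h0 i, mul_zero] at h1
    rw [h0 i]
    exact mul_self_eq_zero.1 h1.symm
  · push Not at h0
    obtain ⟨i, hi⟩ := h0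
    rcases mul_self_eq_mul_self_iff.1 (h i i) with h1 | h1
    · left
      funext j
      have h2 := h i j
      rw [← h1] at h2
      exact (mul_left_cancel₀ hi h2).symm
    · right
      funext j
      have h2 := h i j
      have h3 : v i = - u i := by rw [h1, neg_neg]
      rw [h3] at h2
      have h4 : u i * v j = u i * (- u j) := by linear_combination h2
      exact mul_left_cancel₀ hi h4

/-- lifting one point of `P` -/
theorem lift_one (hLN : S_LN) (F : unitInterval → Fin 4 → ℂ) (hF : Continuous F)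
    (h : ∀ t, ∃ p : (P α β).Pts, fP p = F t) :
    ∃ p : unitInterval → (P α β).Pts, Continuous p ∧ ∀ t, fP (p t) = F t := by
  have hc : ∀ i, Continuous fun t => F t i := fun i => (continuous_apply i).comp hF
  obtain ⟨m, hm⟩ : ∃ m : unitInterval → Fin 2 → Fin 2 → ℂ, m = fun t =>
      ![![F t 0 ^ 3 + α * F t 0 + β, F t 3], ![F t 3, 1 - F t 1 ^ 2 - F t 2 ^ 2]] := ⟨_, rfl⟩
  have hm00 : ∀ t, m t 0 0 = F t 0 ^ 3 + α * F t 0 + β := fun t => by rw [hm]; rfl
  have hm01 : ∀ t, m t 0 1 = F t 3 := fun t => by rw [hm]; rfl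
  have hm10 : ∀ t, m t 1 0 = F t 3 := fun t => by rw [hm]; rfl
  have hm11 : ∀ t, m t 1 1 = 1 - F t 1 ^ 2 - F t 2 ^ 2 := fun t => by rw [hm]; rfl
  have hmc : Continuous m := by
    refine continuous_pi fun i => continuous_pi fun j => ?_
    fin_cases i <;> fin_cases j
    · exact (((hc 0).pow 3).add (continuous_const.mul (hc 0))).add continuous_const |>.congr
        fun t => (hm00 t).symm
    · exact (hc 3).congr fun t => (hm01 t).symm
    · exact (hc 3).congr fun t => (hm10 t).symm
    · exact ((continuous_const.sub ((hc 1).pow 2)).sub ((hc 2).pow 2)).congr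
        fun t => (hm11 t).symm
  obtain ⟨v, hv, hvm⟩ := hLN 2 m hmc (by
    intro t
    obtain ⟨p, hp⟩ := h t
    have e0 : F t 0 = cx p := (congrFun hp 0).symm
    have e1 : F t 1 = cb p := (congrFun hp 1).symm
    have e2 : F t 2 = cc p := (congrFun hp 2).symm
    have e3 : F t 3 = cy p * ca p := (congrFun hp 3).symm
    have hE := eqE p
    have hQ := eqQ p
    refine ⟨![cy p, ca p], fun i j => ?_⟩
    fin_cases i <;> fin_cases j
    · show m t 0 0 = cy p * cy p
      rw [hm00, e0]
      linear_combination -hE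
    · show m t 0 1 = cy p * ca p
      rw [hm01, e3]
    · show m t 1 0 = ca p * cy p
      rw [hm10, e3, mul_comm]
    · show m t 1 1 = ca p * ca p
      rw [hm11, e1, e2]
      linear_combination -hQ)
  have h1 : ∀ t, (v t 0) ^ 2 = F t 0 ^ 3 + α * F t 0 + β := fun t => by
    rw [pow_two, ← hvm, hm00]
  have h2 : ∀ t, (v t 1) ^ 2 + F t 1 ^ 2 + F t 2 ^ 2 = 1 := fun t => by
    rw [pow_two, ← hvm, hm11]
    ring
  have hvc : ∀ i, Continuous fun t => v t i := fun i => (continuous_apply i).comp hv
  refine ⟨fun t => mkP (F t 0) (v t 0) (v t 1) (F t 1) (F t 2) (h1 t) (h2 t), ?_, fun t => ?_⟩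
  · refine Continuous.subtype_mk (continuous_pi fun i => ?_) _
    rcases i with i | i
    · change Fin 2 at i
      obtain rfl | rfl : i = 0 ∨ i = 1 := by omega
      · exact hc 0
      · exact hvc 0
    · change Fin 3 at i
      obtain rfl | rfl | rfl : i = 0 ∨ i = 1 ∨ i = 2 := by omega
      · exact hvc 1
      · exact hc 1
      · exact hc 2
  · have h3 : v t 0 * v t 1 = F t 3 := by rw [← hvm, hm01]
    funext i
    fin_cases i
    · rfl
    · rfl
    · rfl
    · exact h3

end

/-- **LIFT.** -/
theorem t_LIFT (hLN : S_LN) : S_LIFT := by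
  intro α β γ
  obtain ⟨Sf, hSc, hS⟩ := exists_desc (α := α) (β := β)
    (fun z => fun i => fP (fst _ _ z) i + fP (snd _ _ z) i)
    (continuous_pi fun i =>
      (((continuous_apply i).comp (continuous_fP.comp (continuous_fst' _ _))).add
        ((continuous_apply i).comp (continuous_fP.comp (continuous_snd' _ _)))))
    (fun z => by
      show (fun i => fP (σ α β (fst _ _ z)) i + fP (snd _ _ z) i) = _
      rw [fP_σ])
    (fun z => by
      show (fun i => fP (fst _ _ z) i + fP (σ α β (snd _ _ z)) i) = _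
      rw [fP_σ])
    (fun z => by
      show (fun i => fP (snd _ _ z) i + fP (fst _ _ z) i) = _
      funext i
      rw [add_comm])
  obtain ⟨Mf, hMc, hM⟩ := exists_desc (α := α) (β := β)
    (fun z => fun i j => (fP (fst _ _ z) i - fP (snd _ _ z) i) *
      (fP (fst _ _ z) j - fP (snd _ _ z) j))
    (continuous_pi fun i => continuous_pi fun j =>
      (((continuous_apply i).comp (continuous_fP.comp (continuous_fst' _ _))).sub
        ((continuous_apply i).comp (continuous_fP.comp (continuous_snd' _ _)))).mul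
      (((continuous_apply j).comp (continuous_fP.comp (continuous_fst' _ _))).sub
        ((continuous_apply j).comp (continuous_fP.comp (continuous_snd' _ _)))))
    (fun z => by
      show (fun i j => (fP (σ α β (fst _ _ z)) i - fP (snd _ _ z) i) *
        (fP (σ α β (fst _ _ z)) j - fP (snd _ _ z) j)) = _
      rw [fP_σ])
    (fun z => by
      show (fun i j => (fP (fst _ _ z) i - fP (σ α β (snd _ _ z)) i) *
        (fP (fst _ _ z) j - fP (σ α β (snd _ _ z)) j)) = _
      rw [fP_σ])
    (fun z => by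
      show (fun i j => (fP (snd _ _ z) i - fP (fst _ _ z) i) *
        (fP (snd _ _ z) j - fP (fst _ _ z) j)) = _
      funext i j
      ring)
  obtain ⟨v, hv, hvm⟩ := hLN 4 (fun t => Mf (γ t)) (hMc.comp γ.continuous) (by
    intro t
    obtain ⟨z, hz⟩ := proj_surjective α β (γ t)
    refine ⟨fun i => fP (fst _ _ z) i - fP (snd _ _ z) i, fun i j => ?_⟩
    show Mf (γ t) i j = _
    rw [← hz, hM])
  have hsc : Continuous fun t => Sf (γ t) := hSc.comp γ.continuous
  have key : ∀ t, ∃ p q : (P α β).Pts, proj α β (pair _ _ p q) = γ t ∧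
      fP p = (fun i => (Sf (γ t) i + v t i) / 2) ∧ fP q = fun i => (Sf (γ t) i - v t i) / 2 := by
    intro t
    obtain ⟨z, hz⟩ := proj_surjective α β (γ t)
    have h1 : ∀ i j, (fP (fst _ _ z) i - fP (snd _ _ z) i) * (fP (fst _ _ z) j - fP (snd _ _ z) j) =
        v t i * v t j := by
      intro i j
      rw [← hvm t i j, ← hz, hM]
    have h2 : ∀ i, Sf (γ t) i = fP (fst _ _ z) i + fP (snd _ _ z) i := by
      intro i
      rw [← hz, hS]
    rcases sign_of (fun i => fP (fst _ _ z) i - fP (snd _ _ z) i) (v t) h1 with h3 | h3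
    · refine ⟨fst _ _ z, snd _ _ z, ?_, ?_, ?_⟩
      · rw [pair_fs, hz]
      · funext i
        rw [h2, h3]
        ring
      · funext i
        rw [h2, h3]
        ring
    · refine ⟨snd _ _ z, fst _ _ z, ?_, ?_, ?_⟩
      · rw [← hz]
        exact proj_of (z' := z) mem3 rfl
      · funext i
        rw [h2, h3, Pi.neg_apply]
        ring
      · funext i
        rw [h2, h3, Pi.neg_apply]
        ring
  have hc1 : Continuous fun t => fun i => (Sf (γ t) i + v t i) / 2 :=
    continuous_pi fun i => ((((continuous_apply i).comp hsc).add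
      ((continuous_apply i).comp hv)).div_const 2)
  have hc2 : Continuous fun t => fun i => (Sf (γ t) i - v t i) / 2 :=
    continuous_pi fun i => ((((continuous_apply i).comp hsc).sub
      ((continuous_apply i).comp hv)).div_const 2)
  obtain ⟨p, hp, hpF⟩ := lift_one (α := α) (β := β) hLN _ hc1 (fun t => by
    obtain ⟨p, q, _, h1, _⟩ := key t
    exact ⟨p, h1⟩)
  obtain ⟨q, hq, hqF⟩ := lift_one (α := α) (β := β) hLN _ hc2 (fun t => by
    obtain ⟨p, q, _, _, h1⟩ := key t
    exact ⟨q, h1⟩)
  refine ⟨⟨fun t => pair _ _ (p t) (q t), ?_⟩, fun t => ?_⟩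
  · refine Continuous.subtype_mk (continuous_pi fun i => ?_) _
    rcases i with i | i
    · exact (continuous_coord i).comp hp
    · exact (continuous_coord i).comp hq
  · obtain ⟨p', q', h1, h2, h3⟩ := key t
    show proj α β (pair _ _ (p t) (q t)) = γ t
    rw [← h1]
    exact proj_pair (fib' ((hpF t).trans h2.symm)) (fib' ((hqF t).trans h3.symm))

end Pool.Agent.D0H65.HT
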